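import Pool.Agent.helper14.NS.Cert

/-!
Generated: table Q20d.
-/

namespace Pool.Agent.helper14.NS.Q20d

open Pool.Agent.helper63.NF Pool.Agent.helper4.NS

def tab : TD where
  strip := false
  bm := none
  ec := 45902462976
  bc := 1649267441664
  H := [[[19934630720, 55036724928, -9071425792, -3229783744], [-427260636096, -282204626752], [1834976560896]], [[1790460032, -10411525184, 3023456000], [229838036736, 57055902400]], [[-1149853056, 1275274688, -410617024], [-33364235520]], [[191437824, -93107456], [1546233280]], [[-16640000, 3285504]], [[748608]], [[-12096]]]
  pol := some ⟨-1380026679296, -16527034155008, 5872294035456, 31362867265536, [[-188124080000, -75525132672], [-5745534537600, 0]], [[590600076608, -1079304723136], [36146837541952, 0]]⟩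
  a := [[[606413324288, 54808805376, -398100922368, -82283069440], [-1164556173312, -5798384238592]], [[95404097536, -3771400192, 7339966464, 11443699712], [69963022336, 773150932992]], [[88236818432, 184221696, 196608, 0], [6619070464, 4427284480]], [[87685988352, -183042048, 196608, 0], [-6575161344, -4368957440]], [[88513576960, 369557504, 720896, -65536], [13282181120, 8913289216]], [[87960911872, 0, 0, 0], [0, 0]]]
  j := [3298534883328, 2061584302080, 2886218022912, 4260607557632, 5772436045824, 7146825580544]
  c := [879662989312, 879662989312, 659814350848, 549755813888, 439697276928, 329907175424]
  M := [[[[1116313288704, 29007216640, 3286827008], [830229053440, 1817403260928], [43268550426624]], [[124736634880, 40542011392], [4899023486976]], [[142736162816, -109837615104], [-984279482368]], [[-65934589952]], [[-4909826048]], [[87143415808]]], [[[1118664785920, 28186574848, 9749004288], [1060368678912]], [[26991525888, 984088576], [630495379456]], [[-954269696]], [[69468160]]], [[[1119315230720, 27609333760, 10646585344], [992271269888]], [[26012745728, 1068630016], [625675141120]], [[-612368384]], [[40239104]]], [[[1119435554816, 28004515840, 9969270784], [979793543168]], [[25828786176, 999096320], [621493026816]], [[-494403584]],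 [[28508160]]], [[[1119159648256, 29327818752, 10605690880], [1013854371840]], [[25858932736, 824377344], [600905023488]], [[-467337216]], [[23592960]]], [[[1119440666624, 29919346688, 9660268544], [993980973056]], [[25920012288, 731316224], [595865960448]], [[-468058112]], [[22151168]]]]
  l0 := [[[3645453724224, 161819536064], [1747171212032]], [[1015584326976, -465802114496], [-24153534992832]], [[94408490944, -7651294656], [8183669887296]], [[1103965889280, 1063413733056], [-35556755427904]], [[-3546426867904, -2049061318016], [20109853792064]], [[12964850081344, 1495244191424], [-57381644401600]], [[-34335371131072]], [[67105518751168]], [[-101277140958912]], [[115923016203008]], [[-90550496963968]], [[48692940486400]]]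
  q0 := [[281603345600, 207350067136, 24001495808], [7020486598208, 5444323742080], [5135185471168]]
  t := [[[1596626829312, -271198912512, -256379322368, 59759788032], [-2038859366400, 10771806420992]], [[866585280512, 237516619776, -82802442240, -128137625600], [9547156029440, 10813464707072]], [[872079360000, 251986575360, -108907331584, -176403382272], [9583495217152, 8779320721408]], [[868452139008, 225943486464, -110582562816, -160056737792], [9436022374400, 7684887937024]], [[883080560640, 201192570880, -104590147584, -87527260160], [9204814053376, 6557190258688]], [[925437394944, 216346853376, -80688840704, -122303610880], [9133558202368, 6547805765632]]]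
  y := [8325794103296, 11652246274048, 14145474789376, 15938623635456, 17084306161664, 17451525865472]
  sc := [0, 0, 0, 0, 0, 0]
  L := [(0, 2), (0, 3), (1, 1), (2, 0)]
  Lt := [(0, 2), (0, 3), (1, 1)]
  far := 3
  x2 := 10775214161920
  B1 := 879608463360
  C2 := 1379779086336
  f1 := 0
  f2 := 0
  f3 := 0
  is1 := 8796093022208
  s1 := 137438953472

end Pool.Agent.helper14.NS.Q20d
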